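import Pool.Agent.H777_DPV.S2

/-!
A criterion for exponential growth of `R_DPV(n, θ)` in terms of absolute values only.

For `θ / (2 π)` irrational, `R_DPV(n, θ)` is at least `exp (c n)` for some `c > 0` and all large `n`
exactly when, for some `c, K > 0` and all large `n`, every window `[exp (-t - K), exp (-t)]` with
`t ≤ c n` contains the absolute value of an integer polynomial of weight at most `n` at `exp (iθ)`.
The question has a positive answer exactly when this holds on a set of angles that is not null.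
-/

open Filter

namespace Pool.Agent.Results.MP_4c4335_nt.ScaleCriterion

open Pool.Agent.H777_DPV

theorem result :
    (∀ θ : ℝ, Irrational (θ / (2 * Real.pi)) →
      ((∃ c : ℝ, 0 < c ∧ ∀ᶠ n : ℕ in atTop, ((Real.exp (c * n) : ℝ) : EReal) ≤ RDPV n θ) ↔
        ∃ c K : ℝ, 0 < c ∧ 0 < K ∧ ∀ᶠ n : ℕ in atTop, Scales c K θ n)) ∧
    ((∀ᵐ θ ∂(MeasureTheory.volume.restrict (Set.Ico 0 (2 * Real.pi))), ∃ c : ℝ, 0 < c ∧
        ∀ᶠ n : ℕ in atTop, ((Real.exp (c * n) : ℝ) : EReal) ≤ RDPV n θ) ↔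
      ¬ (∀ᵐ θ ∂(MeasureTheory.volume.restrict (Set.Ico 0 (2 * Real.pi))),
        ¬ ∃ c K : ℝ, 0 < c ∧ 0 < K ∧ ∀ᶠ n : ℕ in atTop, Scales c K θ n)) :=
  ⟨crit, crit_ae⟩

end Pool.Agent.Results.MP_4c4335_nt.ScaleCriterion
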