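import Pool.Agent.Helper181_DPV.Main

/-!
# A lower bound for `R_DPV(n, θ)` with exponent two thirds

There is a Lebesgue-null set `E` of real numbers, containing no angle that satisfies a Diophantine
condition (D.C.-m), such that for every `θ` outside `E` there is `c > 0` with
`R_DPV(n, θ) ≥ exp (c n ^ (2 / 3) / (log n) ^ 4)` for all large `n`.
-/

set_option autoImplicit false

namespace Pool.Agent.Results.MP_4c4335_nt.TwoThirdsExponent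

open Finset

/-- Condition (D.C.-m): `|θ - 2πp/q| ≥ q^(-m)` for all integers `p` and all sufficiently large
natural numbers `q`. -/
def DC (m θ : ℝ) : Prop :=
  ∃ q₀ : ℕ, ∀ q : ℕ, q₀ ≤ q → ∀ p : ℤ, (q : ℝ) ^ (-m) ≤ |θ - 2 * Real.pi * p / q|

/-- The set `S_n(θ)` as a subset of `ℂ`: the logarithms, with imaginary part in `[0, 2π)`, of the
non-zero values `∑_{j ≤ D} c_j e^{ijθ}` of the integer vectors with `∑_{j ≤ D} (1 + |c_j|) ≤ n`. -/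
def S (n : ℕ) (θ : ℝ) : Set ℂ :=
  {ζ | 0 ≤ ζ.im ∧ ζ.im < 2 * Real.pi ∧ ∃ (D : ℕ) (c : ℕ → ℤ),
    ∑ j ∈ range (D + 1), (1 + |c j|) ≤ n ∧
    Complex.exp ζ = ∑ j ∈ range (D + 1), (c j : ℂ) * Complex.exp (Complex.I * θ) ^ j}

/-- `θ` has property `DPV(n, R)`: every point of `[-log R, 0] × [0, 2π]` lies within Euclidean
distance `0.1` of some point of `S_n(θ)`. -/
def DPV (n : ℕ) (R θ : ℝ) : Prop :=
  ∀ p : ℂ, -Real.log R ≤ p.re → p.re ≤ 0 → 0 ≤ p.im → p.im ≤ 2 * Real.pi →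
    ∃ ζ ∈ S n θ, dist p ζ ≤ 0.1

/-- `R_DPV(n, θ)`, the supremum of the `R > 0` for which `θ` has property `DPV(n, R)`, as an
extended real number. -/
noncomputable def RDPV (n : ℕ) (θ : ℝ) : EReal :=
  ⨆ (R : ℝ) (_ : 0 < R ∧ DPV n R θ), (R : EReal)

lemma dc_max (m θ : ℝ) (h : DC m θ) : DC (max m 1) θ := by
  obtain ⟨q₀, hq⟩ := h
  refine ⟨q₀ + 1, fun q hq1 p => le_trans ?_ (hq q (by omega) p)⟩
  have h1 : (1 : ℝ) ≤ q := by
    have : 1 ≤ q := by omega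
    exact_mod_cast this
  apply Real.rpow_le_rpow_of_exponent_le h1
  linarith [le_max_left m 1]

/-- The bound `R_DPV(n, θ) ≥ exp (c n ^ (2 / 3) / (log n) ^ 4)` outside a null set that contains
no Diophantine angle. -/
theorem result :
    ∃ E : Set ℝ, MeasureTheory.volume E = 0 ∧ (∀ θ : ℝ, (∃ m : ℝ, DC m θ) → θ ∉ E) ∧
      ∀ θ : ℝ, θ ∉ E → ∃ c : ℝ, 0 < c ∧ ∃ n₀ : ℕ, ∀ n : ℕ, n₀ ≤ n →
        ((Real.exp (c * (n : ℝ) ^ (2 / 3 : ℝ) / (Real.log n) ^ 4) : ℝ) : EReal) ≤ RDPV n θ := by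
  refine ⟨{θ | ¬∃ m : ℝ, DC m θ}, ?_, fun θ h1 h2 => h2 h1, ?_⟩
  · have h1 : ∀ᵐ θ : ℝ, ∃ m : ℝ, DC m θ := by
      filter_upwards [Pool.Agent.Helper181_DPV.ae_dc 3 (by norm_num)] with θ hθ
      exact ⟨3, hθ⟩
    exact MeasureTheory.ae_iff.1 h1
  · intro θ hθ
    rw [Set.mem_setOf_eq, not_not] at hθ
    obtain ⟨m, hm⟩ := hθ
    obtain ⟨c, hc, n₀, hn₀⟩ := Pool.Agent.Helper181_DPV.main (max m 1) θ
      (lt_of_lt_of_le one_pos (le_max_right m 1)) (dc_max m θ hm)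
    refine ⟨c, hc, n₀, fun n hn => ?_⟩
    exact le_iSup₂_of_le (Real.exp (c * (n : ℝ) ^ (2 / 3 : ℝ) / (Real.log n) ^ 4))
      ⟨Real.exp_pos _, hn₀ n hn⟩ le_rfl

end Pool.Agent.Results.MP_4c4335_nt.TwoThirdsExponent
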