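import Pool.Agent.H777_DPV.U2

/-!
An upper bound for `R_DPV(n, θ)`, valid for almost every angle.

For almost every angle `θ` the quantity `R_DPV(n, θ)` is at most `exp (3 n ^ 2)` for all large `n`.
-/

open Filter

namespace Pool.Agent.Results.MP_4c4335_nt.UpperBound

open Pool.Agent.H777_DPV

theorem result :
    ∀ᵐ θ ∂(MeasureTheory.volume.restrict (Set.Ico 0 (2 * Real.pi))), ∀ᶠ n : ℕ in atTop,
      RDPV n θ ≤ ((Real.exp (3 * n ^ 2) : ℝ) : EReal) :=
  upper

end Pool.Agent.Results.MP_4c4335_nt.UpperBound
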