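import Pool.Agent.H777_DPV.Z

/-!
A zero-one law for the growth of `R_DPV(n, θ)`.

For every nondecreasing `F`, either almost every angle `θ` has a constant `c > 0` such that
`R_DPV(n, θ) ≥ F (c n)` for all large `n`, or almost every angle has no such constant. With
`F = exp` this says that the question has a positive answer as soon as the bound `exp (c n)`
holds for a set of angles of positive measure.
-/

open Filter

namespace Pool.Agent.Results.MP_4c4335_nt.ZeroOneLaw

open Pool.Agent.H777_DPV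

theorem result (F : ℝ → ℝ) (hF : Monotone F) :
    (∀ᵐ θ ∂(MeasureTheory.volume.restrict (Set.Ico 0 (2 * Real.pi))), ∃ c : ℝ, 0 < c ∧
      ∀ᶠ n : ℕ in atTop, ((F (c * n) : ℝ) : EReal) ≤ RDPV n θ) ∨
    (∀ᵐ θ ∂(MeasureTheory.volume.restrict (Set.Ico 0 (2 * Real.pi))), ¬ ∃ c : ℝ, 0 < c ∧
      ∀ᶠ n : ℕ in atTop, ((F (c * n) : ℝ) : EReal) ≤ RDPV n θ) :=
  zero_one F hF

end Pool.Agent.Results.MP_4c4335_nt.ZeroOneLaw
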